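import Mathlib

/-!
The choice of the radius.
-/

namespace Pool.Agent.H83.MR

theorem params (x κ τ : ℝ) (hx0 : 0 < x) (hx1 : x < 1) (hτ : 0 < τ)
    (hκ : (1 + 3 * x ^ 2) * x ^ (-(6 * x ^ 2 / (1 + 3 * x ^ 2))) < κ) :
    ∃ n0 : ℕ, ∀ n : ℕ, n0 ≤ n → ∃ r : ℕ,
      (∃ y : ℝ, 1 ≤ y ∧ (1 + 3 * x ^ 2 * y) ^ n ≤ τ * y ^ r * (1 + 3 * x ^ 2) ^ n) ∧
      (1 + 3 * x ^ 2) ^ n ≤ κ ^ n * (x ^ 2) ^ r := by
  obtain ⟨s, hs⟩ : ∃ s : ℝ, s = 3 * x ^ 2 := ⟨_, rfl⟩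
  have hs0 : 0 < s := by rw [hs]; positivity
  have hs1 : 0 < 1 + s := by linarith
  obtain ⟨ρ, hρ⟩ : ∃ ρ : ℝ, ρ = s / (1 + s) := ⟨_, rfl⟩
  have hρ0 : 0 < ρ := by rw [hρ]; positivity
  have hρs : ρ * (1 + s) = s := by rw [hρ]; field_simp
  have e0 : -(6 * x ^ 2 / (1 + 3 * x ^ 2)) = -(2 * ρ) := by
    rw [hρ, hs]
    field_simp
    ring
  rw [e0, ← hs] at hκ
  rw [← hs]
  -- the choice of `δ`
  have hcont : Filter.Tendsto (fun d : ℝ => (1 + s) * x ^ (-(2 * (ρ + 2 * d)))) (nhds 0)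
      (nhds ((1 + s) * x ^ (-(2 * (ρ + 2 * (0 : ℝ)))))) := by
    have h1 : Continuous fun d : ℝ => (1 + s) * x ^ (-(2 * (ρ + 2 * d))) := by
      refine continuous_const.mul ?_
      exact (Real.continuous_const_rpow hx0.ne').comp (by fun_prop)
    exact h1.tendsto 0
  have hlt : (1 + s) * x ^ (-(2 * (ρ + 2 * (0 : ℝ)))) < κ := by
    have : ρ + 2 * (0 : ℝ) = ρ := by ring
    rw [this]
    exact hκ
  have hev : ∀ᶠ d in nhdsWithin (0 : ℝ) (Set.Ioi 0), (1 + s) * x ^ (-(2 * (ρ + 2 * d))) < κ :=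
    (hcont.eventually (gt_mem_nhds hlt)).filter_mono nhdsWithin_le_nhds
  obtain ⟨δ, hδ1, hδ0⟩ := (hev.and self_mem_nhdsWithin).exists
  have hδ0 : 0 < δ := hδ0
  -- the choice of `y`
  obtain ⟨u, hu⟩ : ∃ u : ℝ, u = δ / (1 + ρ) := ⟨_, rfl⟩
  have hu0 : 0 < u := by rw [hu]; positivity
  have huρ : ρ * u < δ := by
    rw [hu, ← mul_div_assoc, div_lt_iff₀ (by linarith)]
    nlinarith
  obtain ⟨y, hy⟩ : ∃ y : ℝ, y = 1 + u := ⟨_, rfl⟩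
  have hy1 : 1 < y := by linarith
  have hy0 : 0 < y := by linarith
  have hkey : 1 + ρ * u < y ^ (ρ + δ) := by
    have h1 : 1 + ρ * u ≤ Real.exp (ρ * u) := by
      have := Real.add_one_le_exp (ρ * u)
      linarith
    have h2 : u / y ≤ Real.log y := by
      have h3 := Real.one_sub_inv_le_log_of_pos hy0
      have h4 : 1 - y⁻¹ = u / y := by
        rw [hy]
        field_simp
        ring
      linarith
    have h3 : y ^ (ρ + δ) = Real.exp (Real.log y * (ρ + δ)) := Real.rpow_def_of_pos hy0 _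
    rw [h3]
    refine lt_of_le_of_lt h1 (Real.exp_lt_exp.mpr ?_)
    have h4 : ρ * u < u / y * (ρ + δ) := by
      rw [div_mul_eq_mul_div, lt_div_iff₀ hy0, hy]
      nlinarith
    have h5 : u / y * (ρ + δ) ≤ Real.log y * (ρ + δ) := mul_le_mul_of_nonneg_right h2 (by linarith)
    linarith
  have hyp0 : 0 < y ^ (ρ + δ) := Real.rpow_pos_of_pos hy0 _
  have h1ρ : 0 < 1 + ρ * u := by positivity
  obtain ⟨θ, hθ⟩ : ∃ θ : ℝ, θ = (1 + ρ * u) / y ^ (ρ + δ) := ⟨_, rfl⟩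
  have hθ0 : 0 ≤ θ := by rw [hθ]; positivity
  have hθ1 : θ < 1 := by rw [hθ, div_lt_one hyp0]; exact hkey
  obtain ⟨n1, hn1⟩ := exists_pow_lt_of_lt_one hτ hθ1
  obtain ⟨n2, hn2⟩ := exists_nat_ge (1 / δ)
  refine ⟨max n1 n2, fun n hn => ?_⟩
  have hnn1 : n1 ≤ n := (le_max_left _ _).trans hn
  have hnn2 : 1 / δ ≤ (n : ℝ) := hn2.trans (by exact_mod_cast (le_max_right _ _).trans hn)
  have hnδ : 1 ≤ δ * n := by
    rw [div_le_iff₀ hδ0] at hnn2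
    linarith
  have hn0 : (0 : ℝ) ≤ n := Nat.cast_nonneg n
  refine ⟨⌈(ρ + δ) * n⌉₊, ⟨y, hy1.le, ?_⟩, ?_⟩
  · have h1 : 1 + s * y = (1 + s) * (1 + ρ * u) := by
      rw [hy]
      linear_combination (-u) * hρs
    have h2 : y ^ ((ρ + δ) * n) ≤ y ^ ⌈(ρ + δ) * n⌉₊ := by
      rw [← Real.rpow_natCast]
      exact Real.rpow_le_rpow_of_exponent_le hy1.le (Nat.le_ceil _)
    have h3 : (y ^ (ρ + δ)) ^ n = y ^ ((ρ + δ) * n) := by
      rw [← Real.rpow_natCast, ← Real.rpow_mul hy0.le]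
    have h4 : (1 + ρ * u) ^ n = θ ^ n * y ^ ((ρ + δ) * n) := by
      rw [← h3, ← mul_pow, hθ, div_mul_cancel₀ _ hyp0.ne']
    have h5 : θ ^ n ≤ τ := (pow_le_pow_of_le_one hθ0 hθ1.le hnn1).trans hn1.le
    have h6 : (1 + ρ * u) ^ n ≤ τ * y ^ ⌈(ρ + δ) * n⌉₊ := by
      rw [h4]
      exact mul_le_mul h5 h2 (by positivity) hτ.le
    rw [h1, mul_pow, mul_comm]
    exact mul_le_mul_of_nonneg_right h6 (by positivity)
  · have hr : ((⌈(ρ + δ) * n⌉₊ : ℕ) : ℝ) ≤ (ρ + 2 * δ) * n := by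
      have h1 := (Nat.ceil_lt_add_one (show 0 ≤ (ρ + δ) * n by positivity)).le
      nlinarith
    have h2 : x ^ (2 * ((ρ + 2 * δ) * n)) ≤ (x ^ 2) ^ ⌈(ρ + δ) * n⌉₊ := by
      have h3 : (x ^ 2) ^ ⌈(ρ + δ) * n⌉₊ = x ^ (2 * (⌈(ρ + δ) * n⌉₊ : ℝ)) := by
        rw [← pow_mul, ← Real.rpow_natCast]
        push_cast
        rfl
      rw [h3]
      exact Real.rpow_le_rpow_of_exponent_ge hx0 hx1.le (by linarith)
    have h3 : 1 + s ≤ κ * x ^ (2 * (ρ + 2 * δ)) := by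
      have h4 : 0 < x ^ (2 * (ρ + 2 * δ)) := Real.rpow_pos_of_pos hx0 _
      have h5 : (1 + s) * x ^ (-(2 * (ρ + 2 * δ))) * x ^ (2 * (ρ + 2 * δ)) = 1 + s := by
        rw [mul_assoc, ← Real.rpow_add hx0]
        simp
      rw [← h5]
      exact mul_le_mul_of_nonneg_right hδ1.le h4.le
    have h4 : (x ^ (2 * (ρ + 2 * δ))) ^ n = x ^ (2 * ((ρ + 2 * δ) * n)) := by
      rw [← Real.rpow_natCast, ← Real.rpow_mul hx0.le]
      ring_nf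
    have hκ0 : 0 < κ := lt_trans (mul_pos hs1 (Real.rpow_pos_of_pos hx0 _)) hκ
    calc (1 + s) ^ n ≤ (κ * x ^ (2 * (ρ + 2 * δ))) ^ n := pow_le_pow_left₀ hs1.le h3 n
      _ = κ ^ n * x ^ (2 * ((ρ + 2 * δ) * n)) := by rw [mul_pow, h4]
      _ ≤ κ ^ n * (x ^ 2) ^ ⌈(ρ + δ) * n⌉₊ := mul_le_mul_of_nonneg_left h2 (by positivity)

theorem num_lt : (1 + 3 * (31 / 200 : ℝ) ^ 2) *
    (31 / 200 : ℝ) ^ (-(6 * (31 / 200 : ℝ) ^ 2 / (1 + 3 * (31 / 200 : ℝ) ^ 2))) < 1.38 := by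
  have h1 : (31 / 200 : ℝ) ^ (-(6 * (31 / 200 : ℝ) ^ 2 / (1 + 3 * (31 / 200 : ℝ) ^ 2))) ≤
      (31 / 200 : ℝ) ^ (-(27 / 200) : ℝ) := by
    refine Real.rpow_le_rpow_of_exponent_ge (by norm_num) (by norm_num) ?_
    rw [neg_le_neg_iff, div_le_div_iff₀ (by norm_num) (by norm_num)]
    norm_num
  have h2 : (31 / 200 : ℝ) ^ (-(27 / 200) : ℝ) = (200 / 31 : ℝ) ^ (27 / 200 : ℝ) := by
    rw [Real.rpow_neg (by norm_num), ← Real.inv_rpow (by norm_num)]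
    norm_num
  rw [h2] at h1
  have h3 : ((200 / 31 : ℝ) ^ (27 / 200 : ℝ)) ^ 200 = (200 / 31 : ℝ) ^ 27 := by
    rw [← Real.rpow_natCast, ← Real.rpow_mul (by norm_num), ← Real.rpow_natCast]
    norm_num
  have h4 : (1 + 3 * (31 / 200 : ℝ) ^ 2) * (200 / 31 : ℝ) ^ (27 / 200 : ℝ) < 1.38 := by
    refine lt_of_pow_lt_pow_left₀ 200 (by norm_num) ?_
    rw [mul_pow, h3]
    norm_num
  exact lt_of_le_of_lt (mul_le_mul_of_nonneg_left h1 (by norm_num)) h4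

end Pool.Agent.H83.MR
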