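import Pool.Agent.H83.MR.Code
import Pool.Agent.H83.MR.Par
import Pool.Agent.H83.EB.Ball
import Pool.Agent.H83.LP.Main

/-!
The bound for the words of the triangles.
-/

namespace Pool.Agent.H83.MR

open Pool.Agent.H99.PT Pool.Agent.H83.LP Finset

/-- the letters as elements of the group -/
def enc : Fin 4 → K4 := ![(0, 0), (0, 1), (1, 0), (1, 1)]

theorem enc_inj : Function.Injective enc := by decide

/-- one class of triangles -/
theorem class_bound {A g : ℕ} (hA : 2 ≤ A) (hg : g ∣ A) (hc : Nat.Coprime g (A / g))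
    (ε x τ μ e : ℝ) (hε : 0 < ε) (hx0 : 0 < x) (hx1 : x < 1) (hτ0 : 0 ≤ τ) (hμ : 0 ≤ μ)
    (he : 0 < e) (r : ℕ) (hW : 0 < Real.log A - Real.log g)
    (hLG : (1 + ε) * Real.log A - 3 * Real.log g ≤ μ)
    (hcoef : μ + e * (Real.log A - Real.log g) ≤
      (6 * x * (1 + x) / (1 + 3 * x ^ 2) - 2 * (2 + 1 / x) * τ) * (Real.log A - Real.log g))
    (hτ : ∑ ξ ∈ (Finset.univ : Finset ((A.primeFactors \ g.primeFactors : Finset ℕ) → K4)).filter
      (fun ξ => r < hw ξ), (x ^ 2) ^ hw ξ ≤
      τ * (1 + 3 * x ^ 2) ^ (A.primeFactors \ g.primeFactors).card)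
    (V : Finset (ℕ × ℕ)) (hV : ∀ v ∈ V, Gen A v)
    (hT : ∀ v ∈ V, ∀ w ∈ V, (2 * v.2 ≤ v.1 ↔ 2 * w.2 ≤ w.1))
    (hs : ∀ v ∈ V, ∀ w ∈ V, Real.log (small v) ≤ Real.log (small w) + ε / 4 * Real.log A)
    (hl : ∀ v ∈ V, ∀ w ∈ V, ∀ p ∈ g.primeFactors, letter v p = letter w p) :
    (V.card : ℝ) ≤ 3 / e * ((Finset.univ :
      Finset ((A.primeFactors \ g.primeFactors : Finset ℕ) → K4)).filter
        (fun ξ => hw ξ ≤ r)).card := by
  have hA0 : 0 < A := by omega
  have hgp : g.primeFactors ⊆ A.primeFactors := Nat.primeFactors_mono hg hA0.ne'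
  set R := A.primeFactors \ g.primeFactors with hR
  have hWR := EB.sum_outside hA0 hg hc
  rw [← hR] at hWR
  have hWs : ∑ p : R, wt A p = Real.log A - Real.log g := by
    rw [← hWR]
    exact Finset.sum_coe_sort R (fun p => wt A p)
  apply code_bound V (fun v (p : R) => enc (letter v p)) (fun p : R => wt A p)
    (fun p => wt_nonneg A p) (by rw [hWs]; exact hW) x τ μ e hx0 hx1 hτ0 hμ he r
    (by rw [hWs]; exact hcoef)
  · intro v hv w hw' hne
    have h1 : ∑ p : R, wt A p * (if enc (letter v p) = enc (letter w p) then (3 : ℝ) else -1) =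
        4 * ∑ p ∈ R, (if letter v p = letter w p then wt A p else 0) -
          (Real.log A - Real.log g) := by
      rw [← hWR, ← Finset.sum_coe_sort R (fun p => if letter v p = letter w p then wt A p else 0),
        ← Finset.sum_coe_sort R (fun p => wt A p), Finset.mul_sum, ← Finset.sum_sub_distrib]
      apply Finset.sum_congr rfl
      intro p _
      by_cases h : letter v p = letter w p
      · rw [if_pos (by rw [h]), if_pos h]
        ring
      · rw [if_neg (fun h' => h (enc_inj h')), if_neg h]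
        ring
    have h2 : ∑ p ∈ R, (if letter v p = letter w p then wt A p else 0) + Real.log g =
        ∑ p ∈ A.primeFactors.filter (fun p => letter v p = letter w p), wt A p := by
      rw [← sum_wt_unitary hA0 hg hc, Finset.sum_filter, ← Finset.sum_sdiff hgp, ← hR]
      congr 1
      apply Finset.sum_congr rfl
      intro p hp
      rw [if_pos (hl v hv w hw' p hp)]
    have h3 := agree_le (hV v hv) (hV w hw') hne
    have h4 := log_det_le (hV v hv) (hV w hw') hne (hT v hv w hw') (ε / 4 * Real.log A)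
      (hs v hv w hw') (hs w hw' v hv)
    have h5 : ∑ p : R, wt A p * (if enc (letter v p) = enc (letter w p) then (3 : ℝ) else -1) ≤
        μ := by
      rw [h1]
      linarith
    exact h5
  · rw [Fintype.card_coe]
    exact hτ

/-- all classes -/
theorem all_bound {A g : ℕ} (hA : 2 ≤ A) (ε X : ℝ) (hε : 0 < ε)
    (hX : ∀ V : Finset (ℕ × ℕ), (∀ v ∈ V, Gen A v) →
      (∀ v ∈ V, ∀ w ∈ V, (2 * v.2 ≤ v.1 ↔ 2 * w.2 ≤ w.1)) →
      (∀ v ∈ V, ∀ w ∈ V, Real.log (small v) ≤ Real.log (small w) + ε / 4 * Real.log A) →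
      (∀ v ∈ V, ∀ w ∈ V, ∀ p ∈ g.primeFactors, letter v p = letter w p) →
      (V.card : ℝ) ≤ X) :
    ({v : ℕ × ℕ | Gen A v}.ncard : ℝ) ≤
      2 * ((1 / ε + 1) * 4 ^ g.primeFactors.card) * X := by
  classical
  have hA0 : 0 < A := by omega
  have hA1 : (1 : ℝ) < A := by exact_mod_cast hA
  have hlA : 0 < Real.log A := Real.log_pos hA1
  have hX0 : 0 ≤ X := by
    have := hX ∅ (by simp) (by simp) (by simp) (by simp)
    simpa using this
  set V : Finset (ℕ × ℕ) := (gen_finite A).toFinset with hV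
  have hVm : ∀ v, v ∈ V ↔ Gen A v := by
    intro v
    rw [hV, Set.Finite.mem_toFinset]
    rfl
  rw [Set.ncard_eq_toFinset_card _ (gen_finite A), ← hV]
  set η : ℝ := ε / 4 * Real.log A with hη
  have hη0 : 0 < η := by positivity
  let key : ℕ × ℕ → Bool × ℕ × (g.primeFactors → Fin 4) := fun v =>
    (decide (2 * v.2 ≤ v.1), ⌊Real.log (small v) / η⌋₊, fun p => letter v p)
  have hlog0 : ∀ v, 0 ≤ Real.log (small v) / η := by
    intro v
    apply div_nonneg _ hη0.le
    exact Real.log_natCast_nonneg _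
  -- number of keys
  have himg : (V.image key).card ≤ 2 * ((⌊1 / ε⌋₊ + 1) * 4 ^ g.primeFactors.card) := by
    have h1 : V.image key ⊆ (Finset.univ : Finset Bool) ×ˢ
        ((range (⌊1 / ε⌋₊ + 1)) ×ˢ (Finset.univ : Finset (g.primeFactors → Fin 4))) := by
      intro a ha
      rw [Finset.mem_image] at ha
      obtain ⟨v, hv, rfl⟩ := ha
      rw [Finset.mem_product, Finset.mem_product]
      refine ⟨Finset.mem_univ _, ?_, Finset.mem_univ _⟩
      rw [Finset.mem_range, Nat.lt_succ_iff]
      apply Nat.floor_mono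
      have hv' := (hVm v).mp hv
      have h3 := (log_small_le hv').2
      rw [div_le_div_iff₀ hη0 hε, hη]
      have h4 := mul_le_mul_of_nonneg_left h3 hε.le
      linarith
    have h4 := Finset.card_le_card h1
    rw [Finset.card_product, Finset.card_product, Finset.card_univ, Fintype.card_bool,
      Finset.card_range, Finset.card_univ, Fintype.card_fun, Fintype.card_fin,
      Fintype.card_coe] at h4
    exact h4
  have himg' : ((V.image key).card : ℝ) ≤ 2 * ((1 / ε + 1) * 4 ^ g.primeFactors.card) := by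
    have h4 : ((V.image key).card : ℝ) ≤
        ((2 * ((⌊1 / ε⌋₊ + 1) * 4 ^ g.primeFactors.card) : ℕ) : ℝ) := by exact_mod_cast himg
    push_cast at h4
    refine h4.trans ?_
    have h5 := Nat.floor_le (show 0 ≤ 1 / ε by positivity)
    gcongr
  have hfib : ∀ c ∈ V.image key, ((V.filter (fun v => key v = c)).card : ℝ) ≤ X := by
    intro c _
    apply hX
    · intro v hv
      rw [Finset.mem_filter] at hv
      exact (hVm v).mp hv.1
    · intro v hv w hw
      rw [Finset.mem_filter] at hv hw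
      have h1 : key v = key w := hv.2.trans hw.2.symm
      have h2 : decide (2 * v.2 ≤ v.1) = decide (2 * w.2 ≤ w.1) := congrArg Prod.fst h1
      exact decide_eq_decide.mp h2
    · intro v hv w hw
      rw [Finset.mem_filter] at hv hw
      have h1 : key v = key w := hv.2.trans hw.2.symm
      have h2 : ⌊Real.log (small v) / η⌋₊ = ⌊Real.log (small w) / η⌋₊ :=
        congrArg (fun x => x.2.1) h1
      have h3 := Nat.lt_floor_add_one (Real.log (small v) / η)
      have h4 := Nat.floor_le (hlog0 w)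
      rw [h2] at h3
      have h5 : Real.log (small v) / η ≤ Real.log (small w) / η + 1 := by linarith
      rw [div_le_iff₀ hη0, add_mul, div_mul_cancel₀ _ hη0.ne', one_mul] at h5
      exact h5
    · intro v hv w hw p hp
      rw [Finset.mem_filter] at hv hw
      have h1 : key v = key w := hv.2.trans hw.2.symm
      have h2 : (fun p : g.primeFactors => letter v p) = fun p : g.primeFactors => letter w p :=
        congrArg (fun x => x.2.2) h1
      exact congrFun h2 ⟨p, hp⟩
  have hcard : (V.card : ℝ) = ∑ c ∈ V.image key, ((V.filter (fun v => key v = c)).card : ℝ) := by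
    have := Finset.card_eq_sum_card_image key V
    exact_mod_cast this
  calc (V.card : ℝ) = ∑ c ∈ V.image key, ((V.filter (fun v => key v = c)).card : ℝ) := hcard
    _ ≤ ∑ c ∈ V.image key, X := Finset.sum_le_sum hfib
    _ = ((V.image key).card : ℝ) * X := by
        rw [Finset.sum_const, nsmul_eq_mul]
    _ ≤ 2 * ((1 / ε + 1) * 4 ^ g.primeFactors.card) * X :=
        mul_le_mul_of_nonneg_right himg' hX0

/-- the tail -/
theorem tail_le {ι : Type*} [Fintype ι] [DecidableEq ι] (x y τ : ℝ) (hx0 : 0 < x) (hy : 1 ≤ y)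
    (r : ℕ) (h : (1 + 3 * x ^ 2 * y) ^ Fintype.card ι ≤
      τ * y ^ r * (1 + 3 * x ^ 2) ^ Fintype.card ι) :
    ∑ ξ ∈ (Finset.univ : Finset (ι → K4)).filter (fun ξ => r < hw ξ), (x ^ 2) ^ hw ξ ≤
      τ * (1 + 3 * x ^ 2) ^ Fintype.card ι := by
  have hy0 : 0 < y ^ r := by positivity
  have h1 : y ^ r * ∑ ξ ∈ (Finset.univ : Finset (ι → K4)).filter (fun ξ => r < hw ξ),
      (x ^ 2) ^ hw ξ ≤ (1 + 3 * (x ^ 2 * y)) ^ Fintype.card ι := by
    rw [← sum_pow_hw, Finset.mul_sum]
    calc _ ≤ ∑ ξ ∈ (Finset.univ : Finset (ι → K4)).filter (fun ξ => r < hw ξ),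
          (x ^ 2 * y) ^ hw ξ := by
          apply Finset.sum_le_sum
          intro ξ hξ
          rw [Finset.mem_filter] at hξ
          rw [mul_pow, mul_comm]
          apply mul_le_mul_of_nonneg_left _ (by positivity)
          exact pow_le_pow_right₀ hy hξ.2.le
      _ ≤ _ := Finset.sum_le_sum_of_subset_of_nonneg (Finset.filter_subset _ _)
          (fun ξ _ _ => by positivity)
  have h2 : y ^ r * ∑ ξ ∈ (Finset.univ : Finset (ι → K4)).filter (fun ξ => r < hw ξ),
      (x ^ 2) ^ hw ξ ≤ y ^ r * (τ * (1 + 3 * x ^ 2) ^ Fintype.card ι) := by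
    calc _ ≤ _ := h1
      _ = (1 + 3 * x ^ 2 * y) ^ Fintype.card ι := by ring
      _ ≤ _ := h
      _ = _ := by ring
  exact le_of_mul_le_mul_left h2 hy0

/-- the ball -/
theorem ball_le {ι : Type*} [Fintype ι] [DecidableEq ι] (x κ : ℝ) (hx0 : 0 < x) (hx1 : x < 1)
    (r : ℕ) (h : (1 + 3 * x ^ 2) ^ Fintype.card ι ≤ κ ^ Fintype.card ι * (x ^ 2) ^ r) :
    (((Finset.univ : Finset (ι → K4)).filter (fun ξ => hw ξ ≤ r)).card : ℝ) ≤
      κ ^ Fintype.card ι := by
  have hx2 : 0 < (x ^ 2) ^ r := by positivity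
  have h1 : (((Finset.univ : Finset (ι → K4)).filter (fun ξ => hw ξ ≤ r)).card : ℝ) *
      (x ^ 2) ^ r ≤ (1 + 3 * x ^ 2) ^ Fintype.card ι := by
    rw [← sum_pow_hw]
    calc _ = ∑ ξ ∈ (Finset.univ : Finset (ι → K4)).filter (fun ξ => hw ξ ≤ r),
          (x ^ 2) ^ r := by rw [Finset.sum_const, nsmul_eq_mul]
      _ ≤ ∑ ξ ∈ (Finset.univ : Finset (ι → K4)).filter (fun ξ => hw ξ ≤ r),
          (x ^ 2) ^ hw ξ := by
          apply Finset.sum_le_sum
          intro ξ hξ
          rw [Finset.mem_filter] at hξ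
          apply pow_le_pow_of_le_one (by positivity) _ hξ.2
          exact pow_le_one₀ hx0.le hx1.le
      _ ≤ _ := Finset.sum_le_sum_of_subset_of_nonneg (Finset.filter_subset _ _)
          (fun ξ _ _ => by positivity)
  exact le_of_mul_le_mul_right (h1.trans h) hx2

end Pool.Agent.H83.MR
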