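import Mathlib

/-!
The eigenvector of Perron of a symmetric matrix with nonnegative entries.
-/

namespace Pool.Agent.H83.MR

open Finset

/-- the statement for a finite type -/
private theorem perron_aux {ι : Type*} [Fintype ι] [DecidableEq ι] (M : ι → ι → ℝ)
    (hM : ∀ a b, M a b = M b a) (hM0 : ∀ a b, 0 ≤ M a b) (g : ι → ℝ) (hg0 : ∀ a, 0 ≤ g a)
    (hg : 0 < ∑ a, g a ^ 2) (ν : ℝ)
    (hν : ν * ∑ a, g a ^ 2 ≤ ∑ a, ∑ b, M a b * g a * g b) :
    ∃ lam : ℝ, ν ≤ lam ∧ ∃ f : ι → ℝ, (∀ a, 0 ≤ f a) ∧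
      ∑ a, f a ^ 2 = 1 ∧ ∀ a, lam * f a ≤ ∑ b, M a b * f b := by
  classical
  -- scaling
  have hscale : ∀ (h : ι → ℝ) (c : ℝ), ∑ a, ∑ b, M a b * (c * h a) * (c * h b) =
      c ^ 2 * ∑ a, ∑ b, M a b * h a * h b := by
    intro h c
    rw [mul_sum]
    refine sum_congr rfl fun a _ => ?_
    rw [mul_sum]
    refine sum_congr rfl fun b _ => ?_
    ring
  have hscale2 : ∀ (h : ι → ℝ) (c : ℝ), ∑ a, (c * h a) ^ 2 = c ^ 2 * ∑ a, h a ^ 2 := by
    intro h c
    rw [mul_sum]
    refine sum_congr rfl fun a _ => ?_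
    ring
  -- the compact set
  obtain ⟨K, hK⟩ : ∃ K : Set (ι → ℝ), K = {h | (∀ a, 0 ≤ h a) ∧ ∑ a, h a ^ 2 = 1} := ⟨_, rfl⟩
  have hKc : IsCompact K := by
    have h1 : IsCompact (Set.Icc (0 : ι → ℝ) 1) := isCompact_Icc
    refine h1.of_isClosed_subset ?_ ?_
    · rw [hK]
      have e1 : IsClosed {h : ι → ℝ | ∀ a, 0 ≤ h a} := by
        have : {h : ι → ℝ | ∀ a, 0 ≤ h a} = ⋂ a, {h : ι → ℝ | 0 ≤ h a} := by
          ext h
          simp
        rw [this]
        exact isClosed_iInter fun a => isClosed_le continuous_const (continuous_apply a)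
      have e2 : IsClosed {h : ι → ℝ | ∑ a, h a ^ 2 = 1} :=
        isClosed_eq (continuous_finsetSum _ fun a _ => (continuous_apply a).pow 2) continuous_const
      exact e1.inter e2
    · intro h hh
      rw [hK] at hh
      refine ⟨fun a => hh.1 a, fun a => ?_⟩
      have e1 : h a ^ 2 ≤ ∑ a, h a ^ 2 :=
        single_le_sum (f := fun a => h a ^ 2) (fun a _ => sq_nonneg (h a)) (mem_univ a)
      rw [hh.2] at e1
      exact (sq_le_one_iff₀ (hh.1 a)).1 e1
  have hKn : K.Nonempty := by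
    refine ⟨fun a => (√(∑ a, g a ^ 2))⁻¹ * g a, ?_⟩
    rw [hK]
    refine ⟨fun a => mul_nonneg (by positivity) (hg0 a), ?_⟩
    rw [hscale2, inv_pow, Real.sq_sqrt hg.le, inv_mul_cancel₀ hg.ne']
  have hQc : Continuous fun h : ι → ℝ => ∑ a, ∑ b, M a b * h a * h b := by
    refine continuous_finsetSum _ fun a _ => continuous_finsetSum _ fun b _ => ?_
    exact (continuous_const.mul (continuous_apply a)).mul (continuous_apply b)
  obtain ⟨f, hfK, hf⟩ := hKc.exists_isMaxOn hKn hQc.continuousOn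
  obtain ⟨lam, hlam⟩ : ∃ lam : ℝ, lam = ∑ a, ∑ b, M a b * f a * f b := ⟨_, rfl⟩
  have hfK' := hfK
  rw [hK] at hfK'
  obtain ⟨hf0, hf1⟩ := hfK'
  -- the maximum property
  have hmax : ∀ h : ι → ℝ, (∀ a, 0 ≤ h a) → 0 < ∑ a, h a ^ 2 →
      ∑ a, ∑ b, M a b * h a * h b ≤ lam * ∑ a, h a ^ 2 := by
    intro h h0 hpos
    have e1 : (fun a => (√(∑ a, h a ^ 2))⁻¹ * h a) ∈ K := by
      rw [hK]
      refine ⟨fun a => mul_nonneg (by positivity) (h0 a), ?_⟩
      rw [hscale2, inv_pow, Real.sq_sqrt hpos.le, inv_mul_cancel₀ hpos.ne']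
    have e2 : ∑ a, ∑ b, M a b * ((√(∑ a, h a ^ 2))⁻¹ * h a) * ((√(∑ a, h a ^ 2))⁻¹ * h b) ≤ lam := by
      rw [hlam]
      exact hf e1
    rw [hscale, inv_pow, Real.sq_sqrt hpos.le, inv_mul_le_iff₀ hpos] at e2
    linarith [mul_comm lam (∑ a, h a ^ 2)]
  -- the inequality at every place
  have hle : ∀ a, ∑ b, M a b * f b ≤ lam * f a := by
    intro a
    refine le_of_forall_pos_le_add fun ε hε => ?_
    obtain ⟨t, ht0, ht⟩ : ∃ t : ℝ, 0 < t ∧ t * |lam - M a a| ≤ 2 * ε := by
      refine ⟨2 * ε / (|lam - M a a| + 1), by positivity, ?_⟩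
      rw [div_mul_eq_mul_div, div_le_iff₀ (by positivity)]
      nlinarith [abs_nonneg (lam - M a a)]
    have hnn : ∀ b, 0 ≤ f b + (if b = a then t else 0) := by
      intro b
      have := hf0 b
      split_ifs <;> linarith
    have hsq : ∑ b, (f b + (if b = a then t else 0)) ^ 2 = 1 + 2 * t * f a + t ^ 2 := by
      have e1 : ∀ b, (f b + (if b = a then t else 0)) ^ 2 =
          f b ^ 2 + (if b = a then 2 * t * f b + t ^ 2 else 0) := by
        intro b
        split_ifs <;> ring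
      rw [sum_congr rfl fun b _ => e1 b, sum_add_distrib, hf1, sum_ite_eq' univ a]
      simp only [mem_univ, if_true]
      ring
    have hQ : ∑ b, ∑ c, M b c * (f b + (if b = a then t else 0)) * (f c + (if c = a then t else 0)) =
        lam + 2 * t * ∑ b, M a b * f b + t ^ 2 * M a a := by
      have e1 : ∀ b c, M b c * (f b + (if b = a then t else 0)) * (f c + (if c = a then t else 0)) =
          M b c * f b * f c + (if c = a then t * (M b c * f b) else 0) +
          (if b = a then t * (M b c * f c) else 0) +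
          (if b = a then (if c = a then t ^ 2 * M b c else 0) else 0) := by
        intro b c
        split_ifs <;> ring
      have e2 : ∀ b, ∑ c, M b c * (f b + (if b = a then t else 0)) * (f c + (if c = a then t else 0)) =
          ∑ c, M b c * f b * f c + t * (M b a * f b) +
          (if b = a then ∑ c, t * (M b c * f c) else 0) + (if b = a then t ^ 2 * M b a else 0) := by
        intro b
        rw [sum_congr rfl fun c _ => e1 b c, sum_add_distrib, sum_add_distrib, sum_add_distrib]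
        congr 1
        · congr 1
          · rw [sum_ite_eq' univ a]
            simp only [mem_univ, if_true]
          · split_ifs
            · rfl
            · simp
        · split_ifs
          · rw [sum_ite_eq' univ a]
            simp only [mem_univ, if_true]
          · simp
      rw [sum_congr rfl fun b _ => e2 b, sum_add_distrib, sum_add_distrib, sum_add_distrib, ← hlam,
        sum_ite_eq' univ a, sum_ite_eq' univ a]
      simp only [mem_univ, if_true]
      have e3 : ∑ b, t * (M b a * f b) = ∑ b, t * (M a b * f b) :=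
        sum_congr rfl fun b _ => by rw [hM b a]
      rw [e3, ← mul_sum]
      ring
    have h1 := hmax _ hnn (by
      rw [hsq]
      have := hf0 a
      positivity)
    rw [hQ, hsq] at h1
    have h2 : 2 * t * ∑ b, M a b * f b ≤ 2 * t * (lam * f a) + t ^ 2 * (lam - M a a) := by nlinarith
    have h3 : t * (lam - M a a) ≤ 2 * ε := (mul_le_mul_of_nonneg_left (le_abs_self _) ht0.le).trans ht
    have h4 : 2 * t * ∑ b, M a b * f b ≤ 2 * t * (lam * f a + ε) := by
      have : t ^ 2 * (lam - M a a) = t * (t * (lam - M a a)) := by ring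
      rw [this] at h2
      have h5 : t * (t * (lam - M a a)) ≤ t * (2 * ε) := mul_le_mul_of_nonneg_left h3 ht0.le
      linarith
    exact le_of_mul_le_mul_left h4 (by positivity)
  have hzero : ∀ a, f a * (lam * f a - ∑ b, M a b * f b) = 0 := by
    have e1 : ∑ a, f a * (lam * f a - ∑ b, M a b * f b) = 0 := by
      have e2 : ∀ a, f a * (lam * f a - ∑ b, M a b * f b) =
          lam * f a ^ 2 - ∑ b, M a b * f a * f b := by
        intro a
        rw [mul_sub, mul_sum]
        congr 1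
        · ring
        · exact sum_congr rfl fun b _ => by ring
      rw [sum_congr rfl fun a _ => e2 a, sum_sub_distrib, ← mul_sum, hf1, ← hlam]
      ring
    have e3 := (sum_eq_zero_iff_of_nonneg (s := univ)
      (f := fun a => f a * (lam * f a - ∑ b, M a b * f b))
      (fun a _ => mul_nonneg (hf0 a) (sub_nonneg.2 (hle a)))).1 e1
    exact fun a => e3 a (mem_univ a)
  refine ⟨lam, ?_, f, hf0, hf1, fun a => ?_⟩
  · have e1 := hν.trans (hmax g hg0 hg)
    exact le_of_mul_le_mul_right e1 hg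
  · rcases mul_eq_zero.1 (hzero a) with h | h
    · rw [h, mul_zero]
      exact sum_nonneg fun b _ => mul_nonneg (hM0 a b) (hf0 b)
    · linarith

theorem perron {α : Type*} [DecidableEq α] (B : Finset α) (M : α → α → ℝ)
    (hM : ∀ a b, M a b = M b a) (hM0 : ∀ a b, 0 ≤ M a b) (g : α → ℝ) (hg0 : ∀ a, 0 ≤ g a)
    (hg : 0 < ∑ a ∈ B, g a ^ 2) (ν : ℝ)
    (hν : ν * ∑ a ∈ B, g a ^ 2 ≤ ∑ a ∈ B, ∑ b ∈ B, M a b * g a * g b) :
    ∃ lam : ℝ, ν ≤ lam ∧ ∃ f : α → ℝ, (∀ a, 0 ≤ f a) ∧ (∀ a, a ∉ B → f a = 0) ∧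
      0 < ∑ a ∈ B, f a ^ 2 ∧ ∀ a ∈ B, lam * f a ≤ ∑ b ∈ B, M a b * f b := by
  classical
  have hs : ∀ F : α → ℝ, ∑ a : B, F a = ∑ a ∈ B, F a := fun F => sum_coe_sort B F
  obtain ⟨lam, h1, f, hf0, hf1, hf⟩ := perron_aux (ι := B) (fun a b => M a b) (fun a b => hM a b)
    (fun a b => hM0 a b) (fun a => g a) (fun a => hg0 a) (by rw [hs fun a => g a ^ 2]; exact hg) ν (by
      rw [hs fun a => g a ^ 2]
      refine hν.trans (le_of_eq ?_)
      rw [← hs]
      refine sum_congr rfl fun a _ => ?_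
      rw [← hs])
  obtain ⟨F, hF⟩ : ∃ F : α → ℝ, F = fun a => if h : a ∈ B then f ⟨a, h⟩ else 0 := ⟨_, rfl⟩
  have hFB : ∀ a : B, F a = f a := by
    intro a
    rw [hF]
    simp
  refine ⟨lam, h1, F, fun a => ?_, fun a ha => ?_, ?_, fun a ha => ?_⟩
  · rw [hF]
    by_cases ha : a ∈ B
    · simp only [ha, dif_pos]
      exact hf0 _
    · simp only [ha, dif_neg, not_false_eq_true]
      exact le_rfl
  · rw [hF]
    simp only [ha, dif_neg, not_false_eq_true]
  · rw [← hs, sum_congr rfl fun a _ => by rw [hFB a], hf1]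
    exact one_pos
  · have e1 := hf ⟨a, ha⟩
    have e2 : F a = f ⟨a, ha⟩ := hFB ⟨a, ha⟩
    rw [e2]
    refine e1.trans (le_of_eq ?_)
    rw [← hs]
    refine sum_congr rfl fun b _ => ?_
    rw [hFB b]

end Pool.Agent.H83.MR
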