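import Pool.Agent.H83.MR.Def

/-!
The Rayleigh quotient of a truncated product function.
-/

namespace Pool.Agent.H83.MR

open Finset

private noncomputable def g (x : ℝ) (b : K4) : ℝ := if b ≠ 0 then x else 1

private theorem g_nonneg {x : ℝ} (hx : 0 ≤ x) (b : K4) : 0 ≤ g x b := by
  unfold g
  split_ifs
  · exact hx
  · exact zero_le_one

private theorem g_zero (x : ℝ) : g x 0 = 1 := if_neg (by simp)

private theorem g_ne (x : ℝ) {b : K4} (hb : b ≠ 0) : g x b = x := if_pos hb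

private theorem pow_hw {ι : Type*} [Fintype ι] (x : ℝ) (ξ : ι → K4) : x ^ hw ξ = ∏ p, g x (ξ p) := by
  unfold hw g
  rw [Finset.prod_ite, prod_const, prod_const_one, mul_one]

private theorem sum4 (f : K4 → ℝ) : ∑ b, f b = f 0 + f (0, 1) + f (1, 0) + f (1, 1) := by
  have h : (Finset.univ : Finset K4) = {0, (0, 1), (1, 0), (1, 1)} := by decide
  rw [h, sum_insert (by decide), sum_insert (by decide), sum_insert (by decide), sum_singleton]
  ring

private theorem sum3 (f : K4 → ℝ) : ∑ b ∈ (Finset.univ : Finset K4).erase 0, f b = f (0, 1) + f (1, 0) + f (1, 1) := by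
  have h : (Finset.univ : Finset K4).erase 0 = {(0, 1), (1, 0), (1, 1)} := by decide
  rw [h, sum_insert (by decide), sum_insert (by decide), sum_singleton]
  ring

private theorem cases4 (c : K4) : c = 0 ∨ c = (0, 1) ∨ c = (1, 0) ∨ c = (1, 1) := by
  revert c
  decide

private theorem sum_g (x : ℝ) : ∑ b, g x b = 1 + 3 * x := by
  rw [sum4, g_zero, g_ne x (by decide), g_ne x (by decide), g_ne x (by decide)]
  ring

private theorem sum_gg (x : ℝ) : ∑ b, g x b * g x b = 1 + 3 * x ^ 2 := by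
  rw [sum4, g_zero, g_ne x (by decide), g_ne x (by decide), g_ne x (by decide)]
  ring

private theorem sum_gc (x : ℝ) (c : K4) (hc : c ≠ 0) : ∑ b, g x b * g x (b + c) = 2 * x + 2 * x ^ 2 := by
  have e0 : g x 0 = 1 := g_zero x
  have e1 : g x (0, 1) = x := g_ne x (by decide)
  have e2 : g x (1, 0) = x := g_ne x (by decide)
  have e3 : g x (1, 1) = x := g_ne x (by decide)
  rw [sum4]
  rcases cases4 c with rfl | rfl | rfl | rfl
  · exact absurd rfl hc
  · rw [show (0 : K4) + (0, 1) = (0, 1) from by decide, show ((0, 1) : K4) + (0, 1) = 0 from by decide,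
      show ((1, 0) : K4) + (0, 1) = (1, 1) from by decide, show ((1, 1) : K4) + (0, 1) = (1, 0) from by decide,
      e0, e1, e2, e3]
    ring
  · rw [show (0 : K4) + (1, 0) = (1, 0) from by decide, show ((0, 1) : K4) + (1, 0) = (1, 1) from by decide,
      show ((1, 0) : K4) + (1, 0) = 0 from by decide, show ((1, 1) : K4) + (1, 0) = (0, 1) from by decide,
      e0, e1, e2, e3]
    ring
  · rw [show (0 : K4) + (1, 1) = (1, 1) from by decide, show ((0, 1) : K4) + (1, 1) = (1, 0) from by decide,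
      show ((1, 0) : K4) + (1, 1) = (0, 1) from by decide, show ((1, 1) : K4) + (1, 1) = 0 from by decide,
      e0, e1, e2, e3]
    ring

private theorem sum_nb (x : ℝ) (hx0 : 0 < x) (hx1 : x < 1) (a : K4) :
    ∑ c ∈ (Finset.univ : Finset K4).erase 0, g x (a + c) ≤ (2 + 1 / x) * g x a := by
  have e0 : g x 0 = 1 := g_zero x
  have e1 : g x (0, 1) = x := g_ne x (by decide)
  have e2 : g x (1, 0) = x := g_ne x (by decide)
  have e3 : g x (1, 1) = x := g_ne x (by decide)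
  have hxx : (2 + 1 / x) * x = 2 * x + 1 := by field_simp
  have h1x : 1 < 1 / x := by rw [lt_div_iff₀ hx0]; linarith
  rw [sum3]
  rcases cases4 a with rfl | rfl | rfl | rfl
  · rw [show (0 : K4) + (0, 1) = (0, 1) from by decide, show (0 : K4) + (1, 0) = (1, 0) from by decide,
      show (0 : K4) + (1, 1) = (1, 1) from by decide, e0, e1, e2, e3]
    linarith
  · rw [show ((0, 1) : K4) + (0, 1) = 0 from by decide, show ((0, 1) : K4) + (1, 0) = (1, 1) from by decide,
      show ((0, 1) : K4) + (1, 1) = (1, 0) from by decide, e0, e1, e2, e3, hxx]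
    linarith
  · rw [show ((1, 0) : K4) + (0, 1) = (1, 1) from by decide, show ((1, 0) : K4) + (1, 0) = 0 from by decide,
      show ((1, 0) : K4) + (1, 1) = (0, 1) from by decide, e0, e1, e2, e3, hxx]
    linarith
  · rw [show ((1, 1) : K4) + (0, 1) = (1, 0) from by decide, show ((1, 1) : K4) + (1, 0) = (0, 1) from by decide,
      show ((1, 1) : K4) + (1, 1) = 0 from by decide, e0, e1, e2, e3, hxx]
    linarith

private theorem sum_prod {ι : Type*} [Fintype ι] [DecidableEq ι] (F : ι → K4 → ℝ) :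
    ∑ ξ : ι → K4, ∏ p, F p (ξ p) = ∏ p, ∑ b, F p b := by
  rw [Finset.prod_univ_sum, Fintype.piFinset_univ]

/-- the generating function of the number of nonzero coordinates -/
theorem sum_pow_hw {ι : Type*} [Fintype ι] [DecidableEq ι] (y : ℝ) :
    ∑ ξ : ι → K4, y ^ hw ξ = (1 + 3 * y) ^ Fintype.card ι := by
  have h : ∀ ξ : ι → K4, y ^ hw ξ = ∏ p, (fun _ : ι => g y) p (ξ p) := fun ξ => pow_hw y ξ
  rw [sum_congr rfl (fun ξ _ => h ξ), sum_prod, prod_const, sum_g, card_univ]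

private theorem full {ι : Type*} [Fintype ι] [DecidableEq ι] (x : ℝ) (p : ι) (c : K4) (hc : c ≠ 0) :
    ∑ ξ : ι → K4, x ^ hw ξ * x ^ hw (ξ + Pi.single p c) =
      (2 * x + 2 * x ^ 2) * (1 + 3 * x ^ 2) ^ (Fintype.card ι - 1) := by
  have h : ∀ ξ : ι → K4, x ^ hw ξ * x ^ hw (ξ + Pi.single p c) =
      ∏ q, (fun (q : ι) (b : K4) => g x b * g x (b + (Pi.single p c : ι → K4) q)) q (ξ q) := by
    intro ξ
    rw [pow_hw, pow_hw, ← prod_mul_distrib]
    rfl
  rw [sum_congr rfl (fun ξ _ => h ξ),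
    sum_prod (fun (q : ι) (b : K4) => g x b * g x (b + (Pi.single p c : ι → K4) q)), ← mul_prod_erase univ _ (mem_univ p)]
  have h1 : ∑ b, g x b * g x (b + (Pi.single p c : ι → K4) p) = 2 * x + 2 * x ^ 2 := by
    rw [Pi.single_eq_same]
    exact sum_gc x c hc
  have h2 : ∏ q ∈ univ.erase p, ∑ b, g x b * g x (b + (Pi.single p c : ι → K4) q) =
      (1 + 3 * x ^ 2) ^ (Fintype.card ι - 1) := by
    rw [prod_congr rfl (g := fun _ => 1 + 3 * x ^ 2), prod_const, card_erase_of_mem (mem_univ p), card_univ]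
    intro q hq
    rw [Pi.single_eq_of_ne (ne_of_mem_erase hq), ← sum_gg x]
    refine sum_congr rfl fun b _ => ?_
    rw [add_zero]
  rw [h1, h2]

private theorem nb {ι : Type*} [Fintype ι] [DecidableEq ι] (x : ℝ) (hx0 : 0 < x) (hx1 : x < 1) (p : ι) (ξ : ι → K4) :
    ∑ c ∈ (Finset.univ : Finset K4).erase 0, x ^ hw (ξ + Pi.single p c) ≤ (2 + 1 / x) * x ^ hw ξ := by
  have h : ∀ c : K4, x ^ hw (ξ + Pi.single p c) = g x (ξ p + c) * ∏ q ∈ univ.erase p, g x (ξ q) := by
    intro c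
    rw [pow_hw, ← mul_prod_erase univ _ (mem_univ p)]
    have h1 : (ξ + Pi.single p c : ι → K4) p = ξ p + c := by rw [Pi.add_apply, Pi.single_eq_same]
    rw [h1]
    congr 1
    refine prod_congr rfl fun q hq => ?_
    rw [Pi.add_apply, Pi.single_eq_of_ne (ne_of_mem_erase hq), add_zero]
  have h0 : x ^ hw ξ = g x (ξ p) * ∏ q ∈ univ.erase p, g x (ξ q) := by
    rw [pow_hw, ← mul_prod_erase univ _ (mem_univ p)]
  have hP : 0 ≤ ∏ q ∈ univ.erase p, g x (ξ q) := prod_nonneg fun q _ => g_nonneg hx0.le _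
  rw [sum_congr rfl (fun c _ => h c), ← sum_mul, h0, ← mul_assoc]
  exact mul_le_mul_of_nonneg_right (sum_nb x hx0 hx1 (ξ p)) hP

private theorem inv {ι : Type*} [Fintype ι] [DecidableEq ι] (x : ℝ) (r : ℕ) (p : ι) (c : K4) :
    ∑ ξ : ι → K4, (if r < hw (ξ + Pi.single p c) then x ^ hw ξ * x ^ hw (ξ + Pi.single p c) else 0) =
      ∑ ξ : ι → K4, (if r < hw ξ then x ^ hw ξ * x ^ hw (ξ + Pi.single p c) else 0) := by
  have hcc : ∀ d : K4, d + d = 0 := by decide
  have hs : (Pi.single p c : ι → K4) + Pi.single p c = 0 := by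
    funext q
    exact hcc _
  have h := Equiv.sum_comp (Equiv.addRight (Pi.single p c : ι → K4))
    (fun ξ : ι → K4 => if r < hw ξ then x ^ hw ξ * x ^ hw (ξ + Pi.single p c) else 0)
  rw [← h]
  refine sum_congr rfl fun ξ _ => ?_
  simp only [Equiv.coe_addRight]
  rw [add_assoc, hs, add_zero, mul_comm]

private theorem trunc {ι : Type*} [Fintype ι] [DecidableEq ι] (x : ℝ) (hx0 : 0 < x) (r : ℕ) (p : ι) (c : K4) :
    ∑ ξ : ι → K4, x ^ hw ξ * x ^ hw (ξ + Pi.single p c) -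
        2 * ∑ ξ ∈ (Finset.univ : Finset (ι → K4)).filter (fun ξ => r < hw ξ), x ^ hw ξ * x ^ hw (ξ + Pi.single p c) ≤
      ∑ ξ ∈ (Finset.univ : Finset (ι → K4)).filter (fun ξ => hw ξ ≤ r),
        if hw (ξ + Pi.single p c) ≤ r then x ^ hw ξ * x ^ hw (ξ + Pi.single p c) else 0 := by
  rw [sum_filter, sum_filter, two_mul]
  nth_rewrite 2 [← inv x r p c]
  rw [← sub_sub, sub_right_comm, ← sum_sub_distrib, ← sum_sub_distrib]
  refine sum_le_sum fun ξ _ => ?_
  have hA : 0 ≤ x ^ hw ξ * x ^ hw (ξ + Pi.single p c) := by positivity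
  by_cases h1 : hw ξ ≤ r <;> by_cases h2 : hw (ξ + Pi.single p c) ≤ r
  · rw [if_pos h1, if_pos h2, if_neg (not_lt.2 h1), if_neg (not_lt.2 h2)]
    linarith
  · rw [if_pos h1, if_neg h2, if_neg (not_lt.2 h1), if_pos (not_le.1 h2)]
    linarith
  · rw [if_neg h1, if_pos (not_le.1 h1), if_neg (not_lt.2 h2)]
    linarith
  · rw [if_neg h1, if_pos (not_le.1 h1), if_pos (not_le.1 h2)]
    linarith

theorem rayleigh {ι : Type*} [Fintype ι] [DecidableEq ι] (x τ : ℝ) (hx0 : 0 < x) (hx1 : x < 1)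
    (hτ0 : 0 ≤ τ) (r : ℕ) (wt : ι → ℝ) (hwt : ∀ p, 0 ≤ wt p)
    (hτ : ∑ ξ ∈ (Finset.univ : Finset (ι → K4)).filter (fun ξ => r < hw ξ), (x ^ 2) ^ hw ξ ≤
      τ * (1 + 3 * x ^ 2) ^ Fintype.card ι) :
    (6 * x * (1 + x) / (1 + 3 * x ^ 2) - 2 * (2 + 1 / x) * τ) * (∑ p, wt p) *
        ∑ ξ ∈ (Finset.univ : Finset (ι → K4)).filter (fun ξ => hw ξ ≤ r), (x ^ hw ξ) ^ 2 ≤
      ∑ ξ ∈ (Finset.univ : Finset (ι → K4)).filter (fun ξ => hw ξ ≤ r), ∑ p, wt p *
        ∑ c ∈ (Finset.univ : Finset K4).erase 0,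
          if hw (ξ + Pi.single p c) ≤ r then x ^ hw ξ * x ^ hw (ξ + Pi.single p c) else 0 := by
  obtain ⟨κ, hκ⟩ : ∃ κ : ℝ, κ = 6 * x * (1 + x) / (1 + 3 * x ^ 2) - 2 * (2 + 1 / x) * τ := ⟨_, rfl⟩
  rw [← hκ]
  have hW : 0 ≤ ∑ p, wt p := sum_nonneg fun p _ => hwt p
  have hS0 : 0 ≤ ∑ ξ ∈ (Finset.univ : Finset (ι → K4)).filter (fun ξ => hw ξ ≤ r), (x ^ hw ξ) ^ 2 :=
    sum_nonneg fun ξ _ => by positivity
  have hS1 : ∑ ξ ∈ (Finset.univ : Finset (ι → K4)).filter (fun ξ => hw ξ ≤ r), (x ^ hw ξ) ^ 2 ≤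
      (1 + 3 * x ^ 2) ^ Fintype.card ι := by
    rw [← sum_pow_hw (ι := ι) (x ^ 2)]
    refine (sum_le_sum_of_subset_of_nonneg (filter_subset _ _) fun ξ _ _ => by positivity).trans_eq ?_
    refine sum_congr rfl fun ξ _ => ?_
    rw [← pow_mul, ← pow_mul, mul_comm]
  rcases lt_or_ge κ 0 with hneg | hpos
  · have h1 : κ * (∑ p, wt p) * ∑ ξ ∈ (Finset.univ : Finset (ι → K4)).filter (fun ξ => hw ξ ≤ r), (x ^ hw ξ) ^ 2 ≤ 0 :=
      mul_nonpos_of_nonpos_of_nonneg (mul_nonpos_of_nonpos_of_nonneg hneg.le hW) hS0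
    refine h1.trans (sum_nonneg fun ξ _ => sum_nonneg fun p _ => mul_nonneg (hwt p) (sum_nonneg fun c _ => ?_))
    split_ifs
    · positivity
    · exact le_rfl
  · -- one coordinate
    have hone : ∀ p : ι, κ * (1 + 3 * x ^ 2) ^ Fintype.card ι ≤
        ∑ ξ ∈ (Finset.univ : Finset (ι → K4)).filter (fun ξ => hw ξ ≤ r),
          ∑ c ∈ (Finset.univ : Finset K4).erase 0,
            if hw (ξ + Pi.single p c) ≤ r then x ^ hw ξ * x ^ hw (ξ + Pi.single p c) else 0 := by
      intro p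
      rw [sum_comm]
      have h1 : ∀ c ∈ (Finset.univ : Finset K4).erase 0,
          (2 * x + 2 * x ^ 2) * (1 + 3 * x ^ 2) ^ (Fintype.card ι - 1) -
            2 * ∑ ξ ∈ (Finset.univ : Finset (ι → K4)).filter (fun ξ => r < hw ξ),
              x ^ hw ξ * x ^ hw (ξ + Pi.single p c) ≤
          ∑ ξ ∈ (Finset.univ : Finset (ι → K4)).filter (fun ξ => hw ξ ≤ r),
            if hw (ξ + Pi.single p c) ≤ r then x ^ hw ξ * x ^ hw (ξ + Pi.single p c) else 0 := by
        intro c hc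
        rw [← full x p c (ne_of_mem_erase hc)]
        exact trunc x hx0 r p c
      refine le_trans ?_ (sum_le_sum h1)
      rw [sum_sub_distrib, sum_const, ← mul_sum, sum_comm]
      have hcard : ((Finset.univ : Finset K4).erase 0).card = 3 := by decide
      rw [hcard]
      have h2 : ∑ ξ ∈ (Finset.univ : Finset (ι → K4)).filter (fun ξ => r < hw ξ),
          ∑ c ∈ (Finset.univ : Finset K4).erase 0, x ^ hw ξ * x ^ hw (ξ + Pi.single p c) ≤
          (2 + 1 / x) * (τ * (1 + 3 * x ^ 2) ^ Fintype.card ι) := by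
        have h3 : ∀ ξ ∈ (Finset.univ : Finset (ι → K4)).filter (fun ξ => r < hw ξ),
            ∑ c ∈ (Finset.univ : Finset K4).erase 0, x ^ hw ξ * x ^ hw (ξ + Pi.single p c) ≤
              (2 + 1 / x) * (x ^ 2) ^ hw ξ := by
          intro ξ _
          rw [← mul_sum]
          refine (mul_le_mul_of_nonneg_left (nb x hx0 hx1 p ξ) (by positivity)).trans_eq ?_
          rw [← pow_mul, mul_comm 2 (hw ξ), pow_mul]
          ring
        refine (sum_le_sum h3).trans ?_
        rw [← mul_sum]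
        exact mul_le_mul_of_nonneg_left hτ (by positivity)
      have hn : Fintype.card ι = Fintype.card ι - 1 + 1 := by
        have := Fintype.card_pos_iff.2 ⟨p⟩
        omega
      have h4 : κ * (1 + 3 * x ^ 2) ^ Fintype.card ι =
          3 * ((2 * x + 2 * x ^ 2) * (1 + 3 * x ^ 2) ^ (Fintype.card ι - 1)) -
            2 * ((2 + 1 / x) * (τ * (1 + 3 * x ^ 2) ^ Fintype.card ι)) := by
        have h5 : 6 * x * (1 + x) / (1 + 3 * x ^ 2) * (1 + 3 * x ^ 2) ^ Fintype.card ι =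
            3 * ((2 * x + 2 * x ^ 2) * (1 + 3 * x ^ 2) ^ (Fintype.card ι - 1)) := by
          have h6 : (1 + 3 * x ^ 2) ≠ 0 := by positivity
          rw [hn, pow_succ, Nat.add_sub_cancel]
          field_simp
          ring
        rw [hκ, sub_mul, h5]
        ring
      rw [h4, nsmul_eq_mul]
      push_cast
      linarith
    have h7 : κ * (∑ p, wt p) * ∑ ξ ∈ (Finset.univ : Finset (ι → K4)).filter (fun ξ => hw ξ ≤ r), (x ^ hw ξ) ^ 2 ≤
        κ * (∑ p, wt p) * (1 + 3 * x ^ 2) ^ Fintype.card ι :=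
      mul_le_mul_of_nonneg_left hS1 (mul_nonneg hpos hW)
    refine h7.trans ?_
    rw [sum_comm]
    have h8 : κ * (∑ p, wt p) * (1 + 3 * x ^ 2) ^ Fintype.card ι =
        ∑ p, wt p * (κ * (1 + 3 * x ^ 2) ^ Fintype.card ι) := by
      rw [← sum_mul]
      ring
    rw [h8]
    refine sum_le_sum fun p _ => ?_
    rw [← mul_sum]
    exact mul_le_mul_of_nonneg_left (hone p) (hwt p)

end Pool.Agent.H83.MR
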