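import Pool.Agent.H83.MR.LP
import Pool.Agent.H83.MR.Perron
import Pool.Agent.H83.MR.Ray

/-!
A bound for the number of words over four letters with bounded weighted agreement.
-/

namespace Pool.Agent.H83.MR

open Finset

theorem add_single_inv {ι : Type*} [DecidableEq ι] (ξ : ι → K4) (p : ι) (c : K4) :
    ξ + Pi.single p c + Pi.single p c = ξ := by
  have h : (Pi.single p c : ι → K4) + Pi.single p c = 0 := by
    rw [← Pi.single_add]
    have h1 : c + c = 0 := by
      revert c
      decide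
    rw [h1, Pi.single_zero]
  rw [add_assoc, h, add_zero]

theorem eq_add_single_iff {ι : Type*} [DecidableEq ι] (ξ η : ι → K4) (p : ι) (c : K4) :
    η = ξ + Pi.single p c ↔ ξ = η + Pi.single p c := by
  constructor
  · rintro rfl
    exact (add_single_inv ξ p c).symm
  · rintro rfl
    exact (add_single_inv η p c).symm

/-- the weighted adjacency matrix -/
noncomputable def adj {ι : Type*} [Fintype ι] [DecidableEq ι] (wt : ι → ℝ)
    (ξ η : ι → K4) : ℝ :=
  ∑ p, wt p * ∑ c ∈ (Finset.univ : Finset K4).erase 0,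
    if η = ξ + Pi.single p c then (1 : ℝ) else 0

theorem adj_symm {ι : Type*} [Fintype ι] [DecidableEq ι] (wt : ι → ℝ) (ξ η : ι → K4) :
    adj wt ξ η = adj wt η ξ := by
  unfold adj
  apply Finset.sum_congr rfl
  intro p _
  congr 1
  apply Finset.sum_congr rfl
  intro c _
  by_cases h : η = ξ + Pi.single p c
  · rw [if_pos h, if_pos ((eq_add_single_iff ξ η p c).mp h)]
  · rw [if_neg h, if_neg (fun h' => h ((eq_add_single_iff ξ η p c).mpr h'))]

theorem sum_adj {ι : Type*} [Fintype ι] [DecidableEq ι] (wt : ι → ℝ) (B : Finset (ι → K4))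
    (ξ : ι → K4) (f : (ι → K4) → ℝ) :
    ∑ η ∈ B, adj wt ξ η * f η = ∑ p, wt p * ∑ c ∈ (Finset.univ : Finset K4).erase 0,
      if ξ + Pi.single p c ∈ B then f (ξ + Pi.single p c) else 0 := by
  unfold adj
  have h1 : ∀ η ∈ B, (∑ p, wt p * ∑ c ∈ (Finset.univ : Finset K4).erase 0,
      if η = ξ + Pi.single p c then (1 : ℝ) else 0) * f η =
      ∑ p, wt p * ∑ c ∈ (Finset.univ : Finset K4).erase 0,
        if η = ξ + Pi.single p c then f η else 0 := by
    intro η _
    rw [Finset.sum_mul]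
    apply Finset.sum_congr rfl
    intro p _
    rw [mul_assoc, Finset.sum_mul]
    congr 1
    apply Finset.sum_congr rfl
    intro c _
    split_ifs <;> simp
  rw [Finset.sum_congr rfl h1, Finset.sum_comm]
  apply Finset.sum_congr rfl
  intro p _
  rw [← Finset.mul_sum, Finset.sum_comm]
  congr 1
  apply Finset.sum_congr rfl
  intro c _
  exact Finset.sum_ite_eq' B (ξ + Pi.single p c : ι → K4) f

/-- words over four letters: a bound by the size of a ball -/
theorem code_bound {σ ι : Type*} [Fintype ι] [DecidableEq ι] (V : Finset σ) (z : σ → ι → K4)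
    (wt : ι → ℝ) (hwt : ∀ p, 0 ≤ wt p) (hW : 0 < ∑ p, wt p) (x τ μ e : ℝ) (hx0 : 0 < x)
    (hx1 : x < 1) (hτ0 : 0 ≤ τ) (hμ : 0 ≤ μ) (he : 0 < e) (r : ℕ)
    (hcoef : μ + e * ∑ p, wt p ≤
      (6 * x * (1 + x) / (1 + 3 * x ^ 2) - 2 * (2 + 1 / x) * τ) * ∑ p, wt p)
    (hV : ∀ v ∈ V, ∀ w ∈ V, v ≠ w →
      ∑ p, wt p * (if z v p = z w p then (3 : ℝ) else -1) ≤ μ)
    (hτ : ∑ ξ ∈ (Finset.univ : Finset (ι → K4)).filter (fun ξ => r < hw ξ), (x ^ 2) ^ hw ξ ≤
      τ * (1 + 3 * x ^ 2) ^ Fintype.card ι) :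
    (V.card : ℝ) ≤
      3 / e * ((Finset.univ : Finset (ι → K4)).filter (fun ξ => hw ξ ≤ r)).card := by
  set B := (Finset.univ : Finset (ι → K4)).filter (fun ξ => hw ξ ≤ r) with hB
  set W : ℝ := ∑ p, wt p with hWdef
  have hBm : ∀ ξ, ξ ∈ B ↔ hw ξ ≤ r := by
    intro ξ
    rw [hB, Finset.mem_filter]
    simp
  have hray := rayleigh x τ hx0 hx1 hτ0 r wt hwt hτ
  rw [← hB, ← hWdef] at hray
  have hg : 0 < ∑ ξ ∈ B, (x ^ hw ξ) ^ 2 := by
    apply Finset.sum_pos (fun ξ _ => by positivity)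
    refine ⟨0, ?_⟩
    rw [hBm]
    simp [hw]
  obtain ⟨lam, hlam, f, hf0, hfB, hf, hfA⟩ := perron B (adj wt) (adj_symm wt)
    (fun ξ η => Finset.sum_nonneg (fun p _ => mul_nonneg (hwt p)
      (Finset.sum_nonneg (fun c _ => by split_ifs <;> norm_num))))
    (fun ξ => x ^ hw ξ) (fun ξ => by positivity) hg
    ((6 * x * (1 + x) / (1 + 3 * x ^ 2) - 2 * (2 + 1 / x) * τ) * W) (by
      refine hray.trans (le_of_eq ?_)
      apply Finset.sum_congr rfl
      intro ξ _
      have h1 : ∑ η ∈ B, adj wt ξ η * x ^ hw ξ * x ^ hw η =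
          x ^ hw ξ * ∑ η ∈ B, adj wt ξ η * x ^ hw η := by
        rw [Finset.mul_sum]
        apply Finset.sum_congr rfl
        intro η _
        ring
      rw [h1, sum_adj, Finset.mul_sum]
      apply Finset.sum_congr rfl
      intro p _
      rw [mul_left_comm (x ^ hw ξ) (wt p)]
      congr 1
      rw [Finset.mul_sum]
      apply Finset.sum_congr rfl
      intro c _
      rw [mul_ite, mul_zero]
      simp only [hBm])
  have hBf : ∑ ξ, f ξ ^ 2 = ∑ ξ ∈ B, f ξ ^ 2 := by
    symm
    apply Finset.sum_subset (Finset.subset_univ B)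
    intro ξ _ hξ
    rw [hfB ξ hξ]
    norm_num
  have hlp := lp_bound V z wt hwt μ lam hμ (by
    have : 0 ≤ e * W := by positivity
    linarith) hV B f hf0 hfB (by rw [hBf]; exact hf) (by
    intro ξ hξ
    refine (hfA ξ hξ).trans (le_of_eq ?_)
    rw [sum_adj]
    apply Finset.sum_congr rfl
    intro p _
    congr 1
    apply Finset.sum_congr rfl
    intro c _
    by_cases h : ξ + Pi.single p c ∈ B
    · rw [if_pos h]
    · rw [if_neg h, hfB _ h])
  have h1 : e * W * V.card ≤ (lam - μ) * V.card := by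
    apply mul_le_mul_of_nonneg_right _ (by positivity)
    linarith
  have h2 : W * (e * V.card) ≤ W * (3 * B.card) := by
    calc W * (e * V.card) = e * W * V.card := by ring
      _ ≤ 3 * W * B.card := h1.trans hlp
      _ = W * (3 * B.card) := by ring
  have h3 := le_of_mul_le_mul_left h2 hW
  rw [div_mul_eq_mul_div, le_div_iff₀ he]
  linarith

end Pool.Agent.H83.MR
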