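import Mathlib

/-!
Words over the group with four elements.
-/

namespace Pool.Agent.H83.MR

open Finset

/-- the group with four elements and exponent two -/
abbrev K4 : Type := ZMod 2 × ZMod 2

/-- the number of coordinates different from zero -/
def hw {ι : Type*} [Fintype ι] (ξ : ι → K4) : ℕ :=
  ((Finset.univ : Finset ι).filter (fun p => ξ p ≠ 0)).card

end Pool.Agent.H83.MR
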