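import Pool.Agent.H83.MR.Def

/-!
Delsarte's inequality with a function of small support (the argument of Navon and Samorodnitsky),
for words with weighted coordinates.
-/

namespace Pool.Agent.H83.MR

open Finset

/-- the characters of the group with four elements, with integer values -/
def si (c a : K4) : ℤ := if c.1 * a.1 + c.2 * a.2 = 0 then 1 else -1

theorem si_add : ∀ c d a : K4, si (c + d) a = si c a * si d a := by decide +kernel

theorem si_zero : ∀ a : K4, si 0 a = 1 := by decide +kernel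

theorem si_sq : ∀ c a : K4, si c a * si c a = 1 := by decide +kernel

theorem si_sum : ∀ a b : K4, ∑ c ∈ (Finset.univ : Finset K4).erase 0, si c a * si c b =
    if a = b then 3 else -1 := by decide +kernel

theorem k4_add_self : ∀ c : K4, c + c = 0 := by decide +kernel

/-- the characters of the words -/
noncomputable def chi {ι : Type*} [Fintype ι] (ξ a : ι → K4) : ℝ := ∏ p, ((si (ξ p) (a p) : ℤ) : ℝ)

theorem chi_add {ι : Type*} [Fintype ι] (ξ η a : ι → K4) :
    chi (ξ + η) a = chi ξ a * chi η a := by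
  unfold chi
  rw [← Finset.prod_mul_distrib]
  refine Finset.prod_congr rfl fun p _ => ?_
  rw [Pi.add_apply, si_add]
  push_cast
  rfl

theorem chi_single {ι : Type*} [Fintype ι] [DecidableEq ι] (p : ι) (c : K4) (a : ι → K4) :
    chi (Pi.single p c) a = ((si c (a p) : ℤ) : ℝ) := by
  unfold chi
  rw [Finset.prod_eq_single p]
  · rw [Pi.single_eq_same]
  · intro q _ hq
    rw [Pi.single_eq_of_ne hq, si_zero, Int.cast_one]
  · intro h
    exact absurd (Finset.mem_univ p) h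

theorem chi_sq {ι : Type*} [Fintype ι] (ξ a : ι → K4) : chi ξ a * chi ξ a = 1 := by
  unfold chi
  rw [← Finset.prod_mul_distrib]
  refine Finset.prod_eq_one fun p _ => ?_
  rw [← Int.cast_mul, si_sq, Int.cast_one]

theorem single_add_self {ι : Type*} [DecidableEq ι] (p : ι) (c : K4) :
    (Pi.single p c : ι → K4) + Pi.single p c = 0 := by
  rw [← Pi.single_add, k4_add_self, Pi.single_zero]

theorem four_swap {α β : Type*} (V : Finset α) (U : Finset β) (F : α → α → β → β → ℝ) :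
    ∑ v ∈ V, ∑ w ∈ V, ∑ ξ ∈ U, ∑ η ∈ U, F v w ξ η =
      ∑ ξ ∈ U, ∑ η ∈ U, ∑ v ∈ V, ∑ w ∈ V, F v w ξ η := by
  calc ∑ v ∈ V, ∑ w ∈ V, ∑ ξ ∈ U, ∑ η ∈ U, F v w ξ η
      = ∑ v ∈ V, ∑ ξ ∈ U, ∑ w ∈ V, ∑ η ∈ U, F v w ξ η :=
        Finset.sum_congr rfl fun v _ => Finset.sum_comm
    _ = ∑ ξ ∈ U, ∑ v ∈ V, ∑ w ∈ V, ∑ η ∈ U, F v w ξ η := Finset.sum_comm
    _ = ∑ ξ ∈ U, ∑ v ∈ V, ∑ η ∈ U, ∑ w ∈ V, F v w ξ η :=
        Finset.sum_congr rfl fun ξ _ => Finset.sum_congr rfl fun v _ => Finset.sum_comm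
    _ = ∑ ξ ∈ U, ∑ η ∈ U, ∑ v ∈ V, ∑ w ∈ V, F v w ξ η :=
        Finset.sum_congr rfl fun ξ _ => Finset.sum_comm

theorem lp_bound {σ ι : Type*} [Fintype ι] [DecidableEq ι] (V : Finset σ) (x : σ → ι → K4)
    (wt : ι → ℝ) (hwt : ∀ p, 0 ≤ wt p) (μ lam : ℝ) (hμ : 0 ≤ μ) (hlam : μ ≤ lam)
    (hV : ∀ v ∈ V, ∀ w ∈ V, v ≠ w →
      ∑ p, wt p * (if x v p = x w p then (3 : ℝ) else -1) ≤ μ)
    (B : Finset (ι → K4)) (f : (ι → K4) → ℝ) (hf0 : ∀ ξ, 0 ≤ f ξ) (hfB : ∀ ξ, ξ ∉ B → f ξ = 0)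
    (hf : 0 < ∑ ξ, f ξ ^ 2)
    (hA : ∀ ξ ∈ B, lam * f ξ ≤
      ∑ p, wt p * ∑ c ∈ (Finset.univ : Finset K4).erase 0, f (ξ + Pi.single p c)) :
    (lam - μ) * V.card ≤ 3 * (∑ p, wt p) * B.card := by
  classical
  set W : ℝ := ∑ p, wt p with hW
  have hW0 : 0 ≤ W := Finset.sum_nonneg fun p _ => hwt p
  set Af : (ι → K4) → ℝ := fun ξ =>
    ∑ p, wt p * ∑ c ∈ (Finset.univ : Finset K4).erase 0, f (ξ + Pi.single p c) with hAf
  have hAf0 : ∀ ξ, 0 ≤ Af ξ := fun ξ => Finset.sum_nonneg fun p _ =>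
    mul_nonneg (hwt p) (Finset.sum_nonneg fun c _ => hf0 _)
  set g : σ → σ → ℝ := fun v w => ∑ ξ, f ξ * (chi ξ (x v) * chi ξ (x w)) with hg
  set L : σ → σ → ℝ := fun v w => ∑ p, wt p * (if x v p = x w p then (3 : ℝ) else -1) with hL
  set F2 : ℝ := ∑ ξ, f ξ ^ 2 with hF2
  -- the key identity
  have key : ∀ v w, L v w * g v w = ∑ ξ, Af ξ * (chi ξ (x v) * chi ξ (x w)) := by
    intro v w
    have h1 : ∀ p c, ∑ ξ, f (ξ + Pi.single p c) * (chi ξ (x v) * chi ξ (x w)) =
        ((si c (x v p) * si c (x w p) : ℤ) : ℝ) * g v w := by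
      intro p c
      have h2 : ∑ ξ, f (ξ + Pi.single p c) * (chi ξ (x v) * chi ξ (x w)) =
          ∑ ξ, f ξ * (chi (ξ + Pi.single p c) (x v) * chi (ξ + Pi.single p c) (x w)) := by
        have h0 := Equiv.sum_comp (Equiv.addRight (Pi.single p c : ι → K4))
          (fun ξ => f ξ * (chi (ξ + Pi.single p c) (x v) * chi (ξ + Pi.single p c) (x w)))
        refine Eq.trans (Finset.sum_congr rfl fun ξ _ => ?_) h0
        simp only [Equiv.coe_addRight]
        rw [add_assoc, single_add_self, add_zero]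
      rw [h2, hg, Finset.mul_sum]
      refine Finset.sum_congr rfl fun ξ _ => ?_
      rw [chi_add, chi_add, chi_single, chi_single]
      push_cast
      ring
    have h3 : ∑ ξ, Af ξ * (chi ξ (x v) * chi ξ (x w)) =
        ∑ p, wt p * ∑ c ∈ (Finset.univ : Finset K4).erase 0,
          ∑ ξ, f (ξ + Pi.single p c) * (chi ξ (x v) * chi ξ (x w)) := by
      have e1 : ∀ ξ, Af ξ * (chi ξ (x v) * chi ξ (x w)) =
          ∑ p, wt p * ∑ c ∈ (Finset.univ : Finset K4).erase 0,
            f (ξ + Pi.single p c) * (chi ξ (x v) * chi ξ (x w)) := by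
        intro ξ
        rw [hAf]
        simp only
        rw [Finset.sum_mul]
        refine Finset.sum_congr rfl fun p _ => ?_
        rw [mul_assoc, Finset.sum_mul]
      rw [Finset.sum_congr rfl fun ξ _ => e1 ξ, Finset.sum_comm]
      refine Finset.sum_congr rfl fun p _ => ?_
      rw [← Finset.mul_sum, Finset.sum_comm]
    rw [h3, hL, Finset.sum_mul]
    refine Finset.sum_congr rfl fun p _ => ?_
    rw [Finset.sum_congr rfl fun c _ => h1 p c, ← Finset.sum_mul, ← Int.cast_sum, si_sum,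
      mul_assoc]
    congr 2
    split_ifs <;> norm_num
  -- the sum
  set S : ℝ := ∑ v ∈ V, ∑ w ∈ V, (L v w - μ) * g v w ^ 2 with hS
  -- upper bound
  have hfsum : (∑ ξ, f ξ) ^ 2 ≤ B.card * F2 := by
    have h1 : ∑ ξ, f ξ = ∑ ξ ∈ B, f ξ := by
      refine (Finset.sum_subset (Finset.subset_univ B) ?_).symm
      intro ξ _ h
      exact hfB ξ h
    rw [h1]
    refine (sq_sum_le_card_mul_sum_sq (s := B) (f := f)).trans ?_
    refine mul_le_mul_of_nonneg_left ?_ (Nat.cast_nonneg _)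
    exact Finset.sum_le_sum_of_subset_of_nonneg (Finset.subset_univ B) fun ξ _ _ => sq_nonneg _
  have hup : S ≤ V.card * (3 * W * (B.card * F2)) := by
    have h1 : ∀ v ∈ V, ∑ w ∈ V, (L v w - μ) * g v w ^ 2 ≤ 3 * W * (B.card * F2) := by
      intro v hv
      have h2 : ∀ w ∈ V, (L v w - μ) * g v w ^ 2 ≤
          if w = v then 3 * W * (B.card * F2) else 0 := by
        intro w hw
        split_ifs with h
        · rw [h]
          have h3 : L v v = 3 * W := by
            rw [hL, hW, Finset.mul_sum]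
            refine Finset.sum_congr rfl fun p _ => ?_
            rw [if_pos rfl]
            ring
          have h4 : g v v = ∑ ξ, f ξ := by
            rw [hg]
            refine Finset.sum_congr rfl fun ξ _ => ?_
            rw [chi_sq, mul_one]
          rw [h3, h4]
          have h5 : (3 * W - μ) * (∑ ξ, f ξ) ^ 2 ≤ 3 * W * (∑ ξ, f ξ) ^ 2 :=
            mul_le_mul_of_nonneg_right (by linarith) (sq_nonneg _)
          exact h5.trans (mul_le_mul_of_nonneg_left hfsum (by linarith))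
        · have h3 : L v w - μ ≤ 0 := by
            have := hV v hv w hw (fun h' => h h'.symm)
            linarith
          exact mul_nonpos_of_nonpos_of_nonneg h3 (sq_nonneg _)
      refine (Finset.sum_le_sum h2).trans ?_
      rw [Finset.sum_ite_eq', if_pos hv]
    refine (Finset.sum_le_sum h1).trans ?_
    rw [Finset.sum_const, nsmul_eq_mul]
  -- the expansion
  have hexp : S = ∑ ξ, ∑ η, (Af ξ - μ * f ξ) * f η *
      (∑ v ∈ V, chi ξ (x v) * chi η (x v)) ^ 2 := by
    have h1 : ∀ v w, (L v w - μ) * g v w ^ 2 = ∑ ξ, ∑ η, (Af ξ - μ * f ξ) * f η *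
        ((chi ξ (x v) * chi η (x v)) * (chi ξ (x w) * chi η (x w))) := by
      intro v w
      have h2 : (L v w - μ) * g v w ^ 2 = (L v w * g v w - μ * g v w) * g v w := by ring
      have h3 : L v w * g v w - μ * g v w =
          ∑ ξ, (Af ξ - μ * f ξ) * (chi ξ (x v) * chi ξ (x w)) := by
        rw [key, hg, Finset.mul_sum, ← Finset.sum_sub_distrib]
        refine Finset.sum_congr rfl fun ξ _ => ?_
        ring
      rw [h2, h3, hg, Finset.sum_mul_sum]
      refine Finset.sum_congr rfl fun ξ _ => Finset.sum_congr rfl fun η _ => ?_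
      ring
    rw [hS, Finset.sum_congr rfl fun v _ => Finset.sum_congr rfl fun w _ => h1 v w, four_swap]
    refine Finset.sum_congr rfl fun ξ _ => Finset.sum_congr rfl fun η _ => ?_
    rw [sq, Finset.sum_mul_sum, Finset.mul_sum]
    refine Finset.sum_congr rfl fun v _ => ?_
    rw [Finset.mul_sum]
  -- lower bound
  have hlow : (lam - μ) * (V.card : ℝ) ^ 2 * F2 ≤ S := by
    rw [hexp, hF2, Finset.mul_sum]
    refine Finset.sum_le_sum fun ξ _ => ?_
    have h0 : 0 ≤ Af ξ - μ * f ξ ∧ (lam - μ) * f ξ ^ 2 ≤ (Af ξ - μ * f ξ) * f ξ := by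
      by_cases hξ : ξ ∈ B
      · have h1 := hA ξ hξ
        have h2 : lam * f ξ ≤ Af ξ := h1
        have h3 := hf0 ξ
        have h4 : μ * f ξ ≤ lam * f ξ := mul_le_mul_of_nonneg_right hlam h3
        refine ⟨by linarith, ?_⟩
        have h5 : (lam * f ξ - μ * f ξ) * f ξ ≤ (Af ξ - μ * f ξ) * f ξ :=
          mul_le_mul_of_nonneg_right (by linarith) h3
        linarith
      · rw [hfB ξ hξ]
        refine ⟨by linarith [hAf0 ξ], by simp⟩
    have h1 : (Af ξ - μ * f ξ) * f ξ * (∑ v ∈ V, chi ξ (x v) * chi ξ (x v)) ^ 2 ≤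
        ∑ η, (Af ξ - μ * f ξ) * f η * (∑ v ∈ V, chi ξ (x v) * chi η (x v)) ^ 2 :=
      Finset.single_le_sum (f := fun η => (Af ξ - μ * f ξ) * f η *
        (∑ v ∈ V, chi ξ (x v) * chi η (x v)) ^ 2)
        (fun η _ => mul_nonneg (mul_nonneg h0.1 (hf0 η)) (sq_nonneg _)) (Finset.mem_univ ξ)
    refine le_trans ?_ h1
    have h2 : ∑ v ∈ V, chi ξ (x v) * chi ξ (x v) = V.card := by
      rw [Finset.sum_congr rfl fun v _ => chi_sq ξ (x v), Finset.sum_const, nsmul_eq_mul, mul_one]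
    rw [h2]
    have h3 := mul_le_mul_of_nonneg_right h0.2 (sq_nonneg (V.card : ℝ))
    linarith
  -- conclusion
  rcases Nat.eq_zero_or_pos V.card with h | h
  · rw [h, Nat.cast_zero, mul_zero]
    positivity
  · have hc : (0 : ℝ) < V.card := by exact_mod_cast h
    have h1 := hlow.trans hup
    have h2 : (V.card * F2) * ((lam - μ) * V.card) ≤ (V.card * F2) * (3 * W * B.card) := by
      linarith
    exact le_of_mul_le_mul_left h2 (mul_pos hc hf)

end Pool.Agent.H83.MR
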