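import Pool.Agent.H83.MR.Class

/-!
The linear programming bound for the number of triangles.
-/

namespace Pool.Agent.H83.MR

open Pool.Agent.H99.PT Pool.Agent.H83.LP Finset

theorem outside_eq {A g : ℕ} (hg : g ∣ A) (hc : Nat.Coprime g (A / g)) :
    A.primeFactors \ g.primeFactors = (A / g).primeFactors := by
  have h1 : A = g * (A / g) := (Nat.mul_div_cancel' hg).symm
  have h2 : A.primeFactors = g.primeFactors ∪ (A / g).primeFactors := by
    conv_lhs => rw [h1]
    exact hc.primeFactors_mul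
  have h3 : Disjoint g.primeFactors (A / g).primeFactors := hc.disjoint_primeFactors
  rw [h2, Finset.union_sdiff_left]
  exact Finset.sdiff_eq_self_of_disjoint h3.symm

theorem mr_main (γ x κ : ℝ) (hγ : γ ≤ 1 / 3) (hx0 : 0 < x) (hx1 : x < 1)
    (h : (1 - 3 * γ) * (1 + 3 * x ^ 2) < 6 * x * (1 + x) * (1 - γ))
    (hκ : (1 + 3 * x ^ 2) * x ^ (-(6 * x ^ 2 / (1 + 3 * x ^ 2))) < κ) :
    ∃ C : ℝ, 0 < C ∧ ∀ A g : ℕ, 0 < A → g ∣ A → Nat.Coprime g (A / g) → (A : ℝ) ^ γ ≤ g →
      ({v : ℕ × ℕ | Gen A v}.ncard : ℝ) ≤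
        C * 4 ^ g.primeFactors.card * κ ^ (A / g).primeFactors.card := by
  have hs : 0 < 1 + 3 * x ^ 2 := by positivity
  have hγ1 : 0 < 1 - γ := by linarith
  have hκ1 : 1 ≤ κ := by
    have h1 : 1 ≤ x ^ (-(6 * x ^ 2 / (1 + 3 * x ^ 2))) :=
      Real.one_le_rpow_of_pos_of_le_one_of_nonpos hx0 hx1.le (by
        rw [neg_nonpos]
        positivity)
    have h2 : 1 ≤ 1 + 3 * x ^ 2 := by nlinarith [sq_nonneg x]
    have h3 : 1 * 1 ≤ (1 + 3 * x ^ 2) * x ^ (-(6 * x ^ 2 / (1 + 3 * x ^ 2))) :=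
      mul_le_mul h2 h1 (by norm_num) hs.le
    linarith
  set c : ℝ := (1 - 3 * γ) / (1 - γ) with hcdef
  have hc0 : 0 ≤ c := div_nonneg (by linarith) hγ1.le
  set lam : ℝ := 6 * x * (1 + x) / (1 + 3 * x ^ 2) with hlam
  have hclam : c < lam := by
    rw [hcdef, hlam, div_lt_div_iff₀ hγ1 hs]
    exact h
  have hlam3 : lam ≤ 3 := by
    rw [hlam, div_le_iff₀ hs]
    nlinarith [sq_nonneg (x - 1)]
  set e : ℝ := (lam - c) / 3 with he
  have he0 : 0 < e := by
    rw [he]
    linarith
  set M : ℝ := 2 * (2 + 1 / x) with hM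
  have hM0 : 0 < M := by positivity
  set τ : ℝ := e / M with hτdef
  have hτ0 : 0 < τ := div_pos he0 hM0
  set ε : ℝ := e * (1 - γ) with hεdef
  have hε0 : 0 < ε := mul_pos he0 hγ1
  have hcγ : c * (1 - γ) = 1 - 3 * γ := div_mul_cancel₀ _ hγ1.ne'
  obtain ⟨n0, hn0⟩ := params x κ τ hx0 hx1 hτ0 hκ
  refine ⟨1575 + 16 * 4 ^ n0 + 2 * (1 / ε + 1) * (3 / e), by positivity, ?_⟩
  intro A g hA hg hc hgA
  set n := (A / g).primeFactors.card with hn
  have hκn : 1 ≤ κ ^ n := one_le_pow₀ hκ1
  have h4g : (0 : ℝ) < 4 ^ g.primeFactors.card := by positivity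
  have hfin : ∀ Y : ℝ, Y ≤ 1575 + 16 * 4 ^ n0 + 2 * (1 / ε + 1) * (3 / e) → 0 ≤ Y →
      Y * 4 ^ g.primeFactors.card ≤
        (1575 + 16 * 4 ^ n0 + 2 * (1 / ε + 1) * (3 / e)) * 4 ^ g.primeFactors.card * κ ^ n := by
    intro Y hY hY0
    calc Y * 4 ^ g.primeFactors.card ≤
        (1575 + 16 * 4 ^ n0 + 2 * (1 / ε + 1) * (3 / e)) * 4 ^ g.primeFactors.card * 1 := by
          rw [mul_one]
          exact mul_le_mul_of_nonneg_right hY h4g.le
      _ ≤ _ := mul_le_mul_of_nonneg_left hκn (by positivity)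
  have hp1 : (0 : ℝ) ≤ 16 * 4 ^ n0 := by positivity
  have hp2 : (0 : ℝ) ≤ 2 * (1 / ε + 1) * (3 / e) := by positivity
  rcases Nat.lt_or_ge A 2 with hA2 | hA2
  · have h1 : {v : ℕ × ℕ | Gen A v} = ∅ := by
      rw [Set.eq_empty_iff_forall_notMem]
      intro v hv
      have hv' : Gen A v := hv
      have h0 := area_pos hv'
      have h2 : v.1 ∣ A := by
        rw [← prod_parts hv']
        exact ⟨part v 1 * part v 2 * part v 3, by simp [part]; ring⟩
      have h3 := Nat.le_of_dvd h0 h2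
      have h4 := hv'.1
      have h5 := hv'.2.1
      omega
    rw [h1, Set.ncard_empty]
    push_cast
    positivity
  have hApos : (0 : ℝ) < A := by exact_mod_cast hA
  have hlA : 0 < Real.log A := Real.log_pos (by exact_mod_cast hA2)
  have hg0 : 0 < g := Nat.pos_of_dvd_of_pos hg hA
  have hgpos : (0 : ℝ) < g := by exact_mod_cast hg0
  have hG : γ * Real.log A ≤ Real.log g := by
    have := Real.log_le_log (by positivity) hgA
    rwa [Real.log_rpow hApos] at this
  rcases lt_or_ge (2 / 5 * Real.log A) (Real.log g) with hbig | hbig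
  · -- a large `g`
    have h5 : (A : ℝ) ^ (1 / 3 + 1 / 15 : ℝ) ≤ g := by
      have h6 : ((A : ℝ) ^ (1 / 3 + 1 / 15 : ℝ)) = Real.exp (2 / 5 * Real.log A) := by
        rw [Real.rpow_def_of_pos hApos]
        congr 1
        ring
      rw [h6]
      calc Real.exp (2 / 5 * Real.log A) ≤ Real.exp (Real.log g) := Real.exp_le_exp.mpr hbig.le
        _ = g := Real.exp_log hgpos
    refine (main A g (1 / 15) (by norm_num) hg hc h5).trans ?_
    have h7 : (7 / (1 / 15) ^ 2 : ℝ) = 1575 := by norm_num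
    rw [h7]
    exact hfin 1575 (by linarith) (by norm_num)
  have hR : (A.primeFactors \ g.primeFactors).card = n := by rw [outside_eq hg hc]
  rcases Nat.lt_or_ge n n0 with hnn | hnn
  · -- few primes outside `g`
    have h1 := main A A (2 / 3) (by norm_num) (dvd_refl A) (by rw [Nat.div_self hA]; simp) (by
      have : (1 / 3 + 2 / 3 : ℝ) = 1 := by norm_num
      rw [this, Real.rpow_one])
    have h2 : A.primeFactors.card = g.primeFactors.card + n := by
      rw [← hR]
      have hgp : g.primeFactors ⊆ A.primeFactors := Nat.primeFactors_mono hg hA.ne'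
      have := Finset.card_sdiff_add_card_eq_card hgp
      omega
    have h3 : ({v : ℕ × ℕ | Gen A v}.ncard : ℝ) ≤ 16 * 4 ^ n0 * 4 ^ g.primeFactors.card := by
      refine h1.trans ?_
      rw [h2, pow_add]
      have h4 : (4 : ℝ) ^ n ≤ 4 ^ n0 := pow_le_pow_right₀ (by norm_num) hnn.le
      have h5 : (7 / (2 / 3) ^ 2 : ℝ) ≤ 16 := by norm_num
      calc (7 / (2 / 3) ^ 2 : ℝ) * (4 ^ g.primeFactors.card * 4 ^ n) ≤
          16 * (4 ^ g.primeFactors.card * 4 ^ n0) := by gcongr
        _ = _ := by ring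
    exact h3.trans (hfin _ (by linarith) hp1)
  · -- the main case
    obtain ⟨r, ⟨y, hy, hyt⟩, hb⟩ := hn0 n hnn
    have hW : 0 < Real.log A - Real.log g := by linarith
    have hcard : Fintype.card (A.primeFactors \ g.primeFactors : Finset ℕ) = n := by
      rw [Fintype.card_coe]
      exact hR
    have hball := ball_le (ι := (A.primeFactors \ g.primeFactors : Finset ℕ)) x κ hx0 hx1 r (by
      rw [hcard]
      exact hb)
    rw [hcard] at hball
    have htail := tail_le (ι := (A.primeFactors \ g.primeFactors : Finset ℕ)) x y τ hx0 hy r (by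
      rw [hcard]
      exact hyt)
    rw [hcard] at htail
    have hMτ : M * τ = e := by
      rw [hτdef]
      field_simp
    have hlam2 : lam = c + 3 * e := by
      rw [he]
      ring
    have hX := all_bound (g := g) hA2 ε (3 / e * κ ^ n) hε0 (by
      intro V hV hT hs' hl
      have h1 := class_bound hA2 hg hc ε x τ ((c + e) * (Real.log A - Real.log g)) e hε0 hx0 hx1
        hτ0.le (mul_nonneg (by linarith) hW.le) he0 r hW (by
          have h2 : 0 ≤ 3 - c - e := by
            have : c + 3 * e ≤ 3 := by linarith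
            linarith
          have h3 := mul_le_mul_of_nonneg_right hG h2
          have h4 : (c * (1 - γ)) * Real.log A = (1 - 3 * γ) * Real.log A := by rw [hcγ]
          rw [hεdef]
          linarith) (by
          rw [← hlam, ← hM, hMτ, hlam2]
          linarith) (by
          rw [hR]
          exact htail) V hV hT hs' hl
      exact h1.trans (mul_le_mul_of_nonneg_left hball (by positivity)))
    refine hX.trans ?_
    calc 2 * ((1 / ε + 1) * 4 ^ g.primeFactors.card) * (3 / e * κ ^ n) =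
        2 * (1 / ε + 1) * (3 / e) * 4 ^ g.primeFactors.card * κ ^ n := by ring
      _ ≤ (1575 + 16 * 4 ^ n0 + 2 * (1 / ε + 1) * (3 / e)) * 4 ^ g.primeFactors.card * κ ^ n := by
        apply mul_le_mul_of_nonneg_right _ (by positivity)
        apply mul_le_mul_of_nonneg_right _ h4g.le
        linarith

end Pool.Agent.H83.MR
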